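import Mathlib

set_option autoImplicit false
set_option linter.unusedSectionVars false
set_option linter.unusedVariables false

namespace Pool.Agent.H844Z.AL

/-- the ring computation behind the cube identity -/
theorem four_cube {E : Type*} [Ring E] (a b c d s r : E)
    (hab : (1 + a) * (1 + b) = 1)
    (h2 : (1 + c) * (1 + -(s * a)) = 1)
    (h3 : (1 + -(r * b)) * (1 + d) = 1) (h3' : (1 + d) * (1 + -(r * b)) = 1)
    (h4 : (1 + -(s * d)) * (1 + -(r * c)) = 1)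
    (as : a * s = a) (ar : a * r = a) (br : b * r = b) (bs : b * s = b) :
    4 * a ^ 3 = 0 := by
  have c1 : c = (1 + c) * s * a := by linear_combination (norm := noncomm_ring) h2
  have cs : c * s = c := by
    calc c * s = (1 + c) * s * (a * s) := by conv_lhs => rw [c1]
                                             noncomm_ring
      _ = c := by rw [as]; exact c1.symm
  have d1 : d = (1 + d) * r * b := by linear_combination (norm := noncomm_ring) h3'
  have dr : d * r = d := by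
    calc d * r = (1 + d) * r * (b * r) := by conv_lhs => rw [d1]
                                             noncomm_ring
      _ = d := by rw [br]; exact d1.symm
  have E1 : a * c * (1 - a) = a * a := by
    linear_combination (norm := noncomm_ring) a * h2 + as * a + a * cs * a
  have hA : ∀ e : E, e * r = e → e * ((1 - b) * (1 + d)) = e := by
    intro e he
    linear_combination (norm := noncomm_ring) e * h3 + he * b * (1 + d)
  have hB : ∀ e : E, e * r = e → e * s = e → e * ((1 - d) * (1 - c)) = e := by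
    intro e he hs
    linear_combination (norm := noncomm_ring) e * h4 + hs * d + he * c - hs * d * r * c
      - e * dr * c
  have e0r : a * (1 + a) * r = a * (1 + a) := by
    linear_combination (norm := noncomm_ring) ar + a * ar
  have e0s : a * (1 + a) * s = a * (1 + a) := by
    linear_combination (norm := noncomm_ring) as + a * as
  have k1 := hA _ e0r
  have k2 := hB (a * (1 + a) * (1 - b))
    (by linear_combination (norm := noncomm_ring) e0r - a * (1 + a) * br)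
    (by linear_combination (norm := noncomm_ring) e0s - a * (1 + a) * bs)
  have k3 : a * (1 + a) * b = -(a * a) := by
    linear_combination (norm := noncomm_ring) a * hab
  have k4 : a * a = a * c + 3 * (a * a * c) := by
    linear_combination (norm := noncomm_ring) k1 * (1 - c) + k2 - 2 * (k3 * c) + k3
  linear_combination (norm := noncomm_ring) -(k4 * (1 - a)) - E1 - 3 * (a * E1)

variable {A : Type*} [AddCommGroup A]

/-- descent along a three step chain -/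
theorem descend (U V0 V1 : AddSubgroup A) (hU : U ≠ ⊥) (T : Set (AddMonoid.End A))
    (hT : ∀ η ∈ T, (∀ v ∈ U, η v ∈ U) ∧ (∀ v ∈ V0, η v = 0) ∧ (∀ v ∈ V1, η v ∈ V0) ∧
      ∀ v, η v ∈ V1) : ∃ v ∈ U, v ≠ 0 ∧ ∀ η ∈ T, η v = 0 := by
  by_cases h0 : ∃ v ∈ U, v ≠ 0 ∧ v ∈ V0
  · obtain ⟨v, hv, h1, h2⟩ := h0
    exact ⟨v, hv, h1, fun η hη => (hT η hη).2.1 v h2⟩
  push Not at h0
  by_cases h1 : ∃ v ∈ U, v ≠ 0 ∧ v ∈ V1
  · obtain ⟨v, hv, h1, h2⟩ := h1
    refine ⟨v, hv, h1, fun η hη => ?_⟩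
    by_contra hc
    exact h0 _ ((hT η hη).1 v hv) hc ((hT η hη).2.2.1 v h2)
  push Not at h1
  obtain ⟨v, hv, hv0⟩ : ∃ v ∈ U, v ≠ 0 := by
    by_contra hc
    push Not at hc
    exact hU ((AddSubgroup.eq_bot_iff_forall _).2 hc)
  refine ⟨v, hv, hv0, fun η hη => ?_⟩
  by_contra hc
  exact h1 _ ((hT η hη).1 v hv) hc ((hT η hη).2.2.2 v)

theorem descend_nil (U : AddSubgroup A) (hU : U ≠ ⊥) (η : AddMonoid.End A)
    (h1 : ∀ v ∈ U, η v ∈ U) (h2 : IsNilpotent η) : ∃ v ∈ U, v ≠ 0 ∧ η v = 0 := by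
  by_contra hc
  push Not at hc
  obtain ⟨n, hn⟩ := h2
  have key : ∀ k : ℕ, ∀ v ∈ U, v ≠ 0 → (η ^ k) v ≠ 0 := by
    intro k
    induction k with
    | zero => intro v _ hv; simpa using hv
    | succ k ih =>
      intro v hv h0
      rw [pow_succ]
      exact ih (η v) (h1 v hv) (hc v hv h0)
  obtain ⟨v, hv, hv0⟩ : ∃ v ∈ U, v ≠ 0 := by
    by_contra hc
    push Not at hc
    exact hU ((AddSubgroup.eq_bot_iff_forall _).2 hc)
  exact key n v hv hv0 (by rw [hn]; rfl)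

/-- finitely many invariant subgroups, each meeting every nonzero invariant subgroup -/
theorem common {ι : Type*} (S : Set ι) (hS : S.Finite) (Inv : AddSubgroup A → Prop)
    (htop : Inv ⊤) (hinf : ∀ U V, Inv U → Inv V → Inv (U ⊓ V)) (W : ι → AddSubgroup A)
    (hW : ∀ i ∈ S, Inv (W i)) (hm : ∀ i ∈ S, ∀ U, Inv U → U ≠ ⊥ → U ⊓ W i ≠ ⊥)
    (hne : (⊤ : AddSubgroup A) ≠ ⊥) :
    ∃ U : AddSubgroup A, U ≠ ⊥ ∧ ∀ i ∈ S, U ≤ W i := by
  have key : ∀ T : Set ι, T.Finite → T ⊆ S →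
      ∃ U : AddSubgroup A, Inv U ∧ U ≠ ⊥ ∧ ∀ i ∈ T, U ≤ W i := by
    intro T hT
    induction T, hT using Set.Finite.induction_on with
    | empty => intro _; exact ⟨⊤, htop, hne, by simp⟩
    | @insert a T ha hT ih =>
      intro hsub
      obtain ⟨U, h1, h2, h3⟩ := ih (fun x hx => hsub (Set.mem_insert_of_mem _ hx))
      have haS : a ∈ S := hsub (Set.mem_insert _ _)
      refine ⟨U ⊓ W a, hinf _ _ h1 (hW a haS), hm a haS U h1 h2, fun i hi => ?_⟩
      rcases hi with rfl | hi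
      · exact inf_le_right
      · exact inf_le_left.trans (h3 i hi)
  obtain ⟨U, -, h2, h3⟩ := key S hS le_rfl
  exact ⟨U, h2, h3⟩

variable {G : Type*} [Group G] [Finite G] (ρ : G →* AddMonoid.End A)

/-- irreducibility -/
def Irr : Prop := ∀ U : AddSubgroup A, (∀ g, ∀ v ∈ U, ρ g v ∈ U) → U = ⊥ ∨ U = ⊤

theorem rho_mul_apply (g h : G) (v : A) : ρ (g * h) v = ρ g (ρ h v) := by
  rw [map_mul]; rfl

theorem rho_inv_apply (g : G) (v : A) : ρ g⁻¹ (ρ g v) = v := by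
  rw [← rho_mul_apply, inv_mul_cancel, map_one]; rfl

theorem rho_apply_inv (g : G) (v : A) : ρ g (ρ g⁻¹ v) = v := by
  rw [← rho_mul_apply, mul_inv_cancel, map_one]; rfl

theorem triv_of_comm (hI : Irr ρ) (S : Set G) (hc : ∀ g, ∀ k ∈ S, g * k * g⁻¹ ∈ S)
    (hn : ∀ k ∈ S, IsNilpotent (ρ k - 1)) (hcomm : ∀ k ∈ S, ∀ k' ∈ S, Commute (ρ k) (ρ k')) :
    ∀ k ∈ S, ρ k = 1 := by
  by_cases hne : (⊤ : AddSubgroup A) = ⊥
  · intro k _
    ext v
    have : ∀ w : A, w = 0 := fun w => by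
      have : w ∈ (⊥ : AddSubgroup A) := hne ▸ AddSubgroup.mem_top w
      simpa using this
    rw [this (ρ k v), this ((1 : AddMonoid.End A) v)]
  let W : G → AddSubgroup A := fun k => (ρ k - 1 : AddMonoid.End A).ker
  have hW : ∀ k v, v ∈ W k ↔ ρ k v = v := fun k v => by
    show (ρ k v - v = 0) ↔ _
    exact sub_eq_zero
  obtain ⟨U, hU, hle⟩ := common S (Set.toFinite S) (fun U => ∀ k ∈ S, ∀ v ∈ U, ρ k v ∈ U)
    (fun _ _ _ _ => trivial) (fun U V h1 h2 k hk v hv => ⟨h1 k hk v hv.1, h2 k hk v hv.2⟩) W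
    (fun i hi k hk v hv => by
      rw [hW] at hv ⊢
      have := congrArg (fun f : AddMonoid.End A => f v) (hcomm i hi k hk).eq
      simp only [AddMonoid.End.coe_mul, Function.comp_apply] at this
      rw [this, hv])
    (fun i hi U h1 h2 => by
      obtain ⟨v, hv, hv0, hz⟩ := descend_nil U h2 (ρ i - 1)
        (fun v hv => U.sub_mem (h1 i hi v hv) hv) (hn i hi)
      intro hb
      have : v ∈ U ⊓ W i := ⟨hv, hz⟩
      rw [hb] at this
      exact hv0 this) hne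
  let X : AddSubgroup A := ⨅ k ∈ S, W k
  have hX : ∀ v, v ∈ X ↔ ∀ k ∈ S, ρ k v = v := fun v => by
    simp only [X, AddSubgroup.mem_iInf, hW]
  rcases hI X (fun g v hv => by
    rw [hX] at hv ⊢
    intro k hk
    have := hv _ (hc g⁻¹ k hk)
    rw [inv_inv, rho_mul_apply, rho_mul_apply] at this
    have h2 := congrArg (ρ g) this
    rwa [rho_apply_inv] at h2) with h | h
  · exfalso
    apply hU
    rw [eq_bot_iff, ← h]
    intro v hv
    rw [hX]
    exact fun k hk => (hW k v).1 (hle k hk hv)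
  · intro k hk
    ext v
    exact (hX v).1 (h ▸ AddSubgroup.mem_top v) k hk

theorem group_main (hI : Irr ρ) (K : Subgroup G) [hK : K.Normal] (D : Set G)
    (hc : ∀ g, ∀ x ∈ D, g * x * g⁻¹ ∈ D)
    (h1 : ∀ x ∈ D, ∃ V0 V1 : AddSubgroup A, ∀ α ∈ K,
      (∀ v ∈ V0, ρ (α * x * α⁻¹) v - v = 0) ∧ (∀ v ∈ V1, ρ (α * x * α⁻¹) v - v ∈ V0) ∧
        ∀ v, ρ (α * x * α⁻¹) v - v ∈ V1)
    (h2 : ∀ x ∈ D, ∀ y ∈ D, y * x * y⁻¹ * x⁻¹ ∈ K) : ∀ x ∈ D, ρ x = 1 := by
  by_cases hne : (⊤ : AddSubgroup A) = ⊥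
  · intro k _
    ext v
    have : ∀ w : A, w = 0 := fun w => by
      have : w ∈ (⊥ : AddSubgroup A) := hne ▸ AddSubgroup.mem_top w
      simpa using this
    rw [this (ρ k v), this ((1 : AddMonoid.End A) v)]
  have hnil : ∀ x ∈ D, IsNilpotent (ρ x - 1) := by
    intro x hx
    obtain ⟨V0, V1, h⟩ := h1 x hx
    obtain ⟨a0, a1, a2⟩ := h 1 (one_mem _)
    simp only [one_mul, inv_one, mul_one] at a0 a1 a2
    refine ⟨3, ?_⟩
    ext v
    exact a0 _ (a1 _ (a2 v))
  let W : G → AddSubgroup A := fun x => ⨅ α ∈ K, (ρ (α * x * α⁻¹) - ρ x : AddMonoid.End A).ker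
  have hW : ∀ x v, v ∈ W x ↔ ∀ α ∈ K, ρ (α * x * α⁻¹) v = ρ x v := fun x v => by
    simp only [W, AddSubgroup.mem_iInf]
    refine forall₂_congr (fun α _ => ?_)
    show (ρ (α * x * α⁻¹) v - ρ x v = 0) ↔ _
    exact sub_eq_zero
  obtain ⟨U, hU, hle⟩ := common D (Set.toFinite D) (fun U => ∀ k ∈ K, ∀ v ∈ U, ρ k v ∈ U)
    (fun _ _ _ _ => trivial) (fun U V h1 h2 k hk v hv => ⟨h1 k hk v hv.1, h2 k hk v hv.2⟩) W
    (fun x hx β hβ v hv => by
      rw [hW] at hv ⊢
      intro α hα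
      have e1 := hv (β⁻¹ * α) (mul_mem (inv_mem hβ) hα)
      have e2 := hv β⁻¹ (inv_mem hβ)
      have e3 : α * x * α⁻¹ * β = β * (β⁻¹ * α * x * (β⁻¹ * α)⁻¹) := by group
      have e4 : x * β = β * (β⁻¹ * x * β⁻¹⁻¹) := by group
      rw [← rho_mul_apply, ← rho_mul_apply, e3, e4, rho_mul_apply, rho_mul_apply ρ β, e1, e2])
    (fun x hx U hU1 hU2 => by
      obtain ⟨V0, V1, h⟩ := h1 x hx
      obtain ⟨a0, a1, a2⟩ := h 1 (one_mem _)
      simp only [one_mul, inv_one, mul_one] at a0 a1 a2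
      have i0 : ∀ v ∈ V0, ρ x⁻¹ v = v := fun v hv => by
        have := sub_eq_zero.1 (a0 v hv)
        conv_lhs => rw [← this]
        exact rho_inv_apply ρ x v
      have i1 : ∀ v ∈ V1, ρ x⁻¹ v ∈ V1 := fun v hv => by
        have := V1.sub_mem hv (a2 (ρ x⁻¹ v))
        rw [rho_apply_inv] at this
        simpa using this
      have dec : ∀ α v, (ρ (x⁻¹ * (α * x * α⁻¹)) - 1 : AddMonoid.End A) v =
          ρ x⁻¹ ((ρ (α * x * α⁻¹) v - v) - (ρ x v - v)) := fun α v => by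
        show ρ (x⁻¹ * (α * x * α⁻¹)) v - v = _
        rw [rho_mul_apply, sub_sub_sub_cancel_right, map_sub, rho_inv_apply]
      obtain ⟨v, hv, hv0, hz⟩ := descend U V0 V1 hU2
        {η | ∃ α ∈ K, η = ρ (x⁻¹ * (α * x * α⁻¹)) - 1} (by
          rintro _ ⟨α, hα, rfl⟩
          obtain ⟨b0, b1, b2⟩ := h α hα
          refine ⟨fun v hv => U.sub_mem (hU1 _ ?_ v hv) hv, fun v hv => ?_, fun v hv => ?_,
            fun v => ?_⟩
          · have : x⁻¹ * (α * x * α⁻¹) = (x⁻¹ * α * x⁻¹⁻¹) * α⁻¹ := by group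
            rw [this]
            exact mul_mem (hK.conj_mem _ hα _) (inv_mem hα)
          · rw [dec, b0 v hv, a0 v hv]; simp
          · have := V0.sub_mem (b1 v hv) (a1 v hv)
            rw [dec, i0 _ this]; exact this
          · rw [dec]; exact i1 _ (V1.sub_mem (b2 v) (a2 v)))
      intro hb
      have : v ∈ U ⊓ W x := ⟨hv, (hW x v).2 (fun α hα => by
        have e1 : ρ (x⁻¹ * (α * x * α⁻¹)) v - v = 0 := hz _ ⟨α, hα, rfl⟩
        have e2 := congrArg (ρ x) (sub_eq_zero.1 e1)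
        rwa [rho_mul_apply, rho_apply_inv] at e2)⟩
      rw [hb] at this
      exact hv0 this) hne
  let X : AddSubgroup A := ⨅ x ∈ D, W x
  have hX : ∀ v, v ∈ X ↔ ∀ x ∈ D, ∀ α ∈ K, ρ (α * x * α⁻¹) v = ρ x v := fun v => by
    simp only [X, AddSubgroup.mem_iInf, hW]
  have c1 : ∀ x ∈ D, ∀ α ∈ K, Commute (ρ α) (ρ x) := by
    rcases hI X (fun g v hv => by
      rw [hX] at hv ⊢
      intro x hx α hα
      have e1 := hv _ (hc g⁻¹ x hx) _ (hK.conj_mem _ hα g⁻¹)
      have e3 : α * x * α⁻¹ * g =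
          g * (g⁻¹ * α * g⁻¹⁻¹ * (g⁻¹ * x * g⁻¹⁻¹) * (g⁻¹ * α * g⁻¹⁻¹)⁻¹) := by group
      have e4 : x * g = g * (g⁻¹ * x * g⁻¹⁻¹) := by group
      rw [← rho_mul_apply, ← rho_mul_apply, e3, e4, rho_mul_apply, rho_mul_apply ρ g, e1])
      with h | h
    · exfalso
      apply hU
      rw [eq_bot_iff, ← h]
      intro v hv
      rw [hX]
      exact fun x hx => (hW x v).1 (hle x hx hv)
    · intro x hx α hα
      have e : ρ (α * x * α⁻¹) = ρ x := by
        ext v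
        exact (hX v).1 (h ▸ AddSubgroup.mem_top v) x hx α hα
      have e2 : α * x = (α * x * α⁻¹) * α := by group
      show ρ α * ρ x = ρ x * ρ α
      rw [← map_mul, e2, map_mul, e]
  have cinv : ∀ {a b : G}, Commute (ρ a) (ρ b) → Commute (ρ a) (ρ b⁻¹) := by
    intro a b h
    have e1 : ρ b⁻¹ * ρ b = 1 := by rw [← map_mul, inv_mul_cancel, map_one]
    have e2 : ρ b * ρ b⁻¹ = 1 := by rw [← map_mul, mul_inv_cancel, map_one]
    show ρ a * ρ b⁻¹ = ρ b⁻¹ * ρ a
    calc ρ a * ρ b⁻¹ = (ρ b⁻¹ * ρ b) * ρ a * ρ b⁻¹ := by rw [e1, one_mul]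
      _ = ρ b⁻¹ * (ρ b * ρ a) * ρ b⁻¹ := by rw [mul_assoc (ρ b⁻¹)]
      _ = ρ b⁻¹ * ρ a * (ρ b * ρ b⁻¹) := by rw [← h.eq]; simp only [mul_assoc]
      _ = ρ b⁻¹ * ρ a := by rw [e2, mul_one]
  have c2 := triv_of_comm ρ hI {k | ∃ x ∈ D, ∃ y ∈ D, k = y * x * y⁻¹ * x⁻¹} (by
      rintro g _ ⟨x, hx, y, hy, rfl⟩
      exact ⟨_, hc g x hx, _, hc g y hy, by group⟩) (by
      rintro _ ⟨x, hx, y, hy, rfl⟩
      have hk := c1 x hx _ (h2 x hx y hy)
      have e1 : ρ (y * x * y⁻¹) = ρ (y * x * y⁻¹ * x⁻¹) * ρ x := by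
        rw [← map_mul]; congr 1; group
      have hcm : Commute (ρ (y * x * y⁻¹)) (ρ x) := by
        rw [e1]; exact hk.mul_left (Commute.refl _)
      have e2 : ρ x * ρ x⁻¹ = 1 := by rw [← map_mul, mul_inv_cancel, map_one]
      have e3 : ρ (y * x * y⁻¹ * x⁻¹) - 1 =
          ((ρ (y * x * y⁻¹) - 1) - (ρ x - 1)) * ρ x⁻¹ := by
        rw [sub_sub_sub_cancel_right, sub_mul, e2, ← map_mul]
      rw [e3]
      have n1 : IsNilpotent ((ρ (y * x * y⁻¹) - 1) - (ρ x - 1)) :=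
        Commute.isNilpotent_sub
          ((hcm.sub_right (Commute.one_right _)).sub_left (Commute.one_left _))
          (hnil _ (hc y x hx)) (hnil x hx)
      refine Commute.isNilpotent_mul_right ?_ n1
      exact ((cinv hcm).sub_left (Commute.one_left _)).sub_left
        ((cinv (Commute.refl _)).sub_left (Commute.one_left _))) (by
      rintro _ ⟨x, hx, y, hy, rfl⟩ _ ⟨x', hx', y', hy', rfl⟩
      have hk := h2 x hx y hy
      rw [map_mul ρ (y' * x' * y'⁻¹), map_mul ρ (y' * x'), map_mul ρ y']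
      exact (((c1 _ hy' _ hk).mul_right (c1 _ hx' _ hk)).mul_right
        (cinv (c1 _ hy' _ hk))).mul_right (cinv (c1 _ hx' _ hk)))
  refine triv_of_comm ρ hI D hc hnil (fun y hy x hx => ?_)
  have e := c2 _ ⟨x, hx, y, hy, rfl⟩
  have e2 : y * x = (y * x * y⁻¹ * x⁻¹) * (x * y) := by group
  show ρ y * ρ x = ρ x * ρ y
  rw [← map_mul, e2, map_mul, e, one_mul, map_mul]

end Pool.Agent.H844Z.AL
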