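import Pool.Agent.H921Z.Loop.Sym
import Pool.Agent.H284Z.Hall
import Pool.Agent.H844Z.AL.Alg

set_option autoImplicit false
set_option linter.unusedSectionVars false
set_option linter.unusedVariables false
set_option linter.style.haveILetI false

namespace Pool.Agent.H844Z.AL

open Pool.Agent.H284Z Pool.Agent.H921Z.Loop Equiv

variable {Q F : Type} [ALoop Q] [ALoop F]

variable (Q) in
/-- the inner mapping group -/
def Inn : Subgroup (Perm Q) where
  carrier := {g | g ∈ Mlt Q ∧ g 1 = 1}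
  one_mem' := ⟨one_mem _, rfl⟩
  mul_mem' := by
    rintro g h ⟨hg, g1⟩ ⟨hh, h1⟩
    exact ⟨mul_mem hg hh, by rw [Perm.mul_apply, h1, g1]⟩
  inv_mem' := by
    rintro g ⟨hg, g1⟩
    exact ⟨inv_mem hg, H284Z.inv_one g1⟩

theorem inn_aut (g : Inn Q) : g.1 ∈ AutG Q := aut_of_mem g.2.1 g.2.2

/-- the middle inner mapping -/
noncomputable def mu (y u : Q) : Inn Q :=
  ⟨(L y)⁻¹ * (R u)⁻¹ * L y * R u,
    mul_mem (mul_mem (mul_mem (inv_mem (L_mem _)) (inv_mem (R_mem _))) (L_mem _)) (R_mem _),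
    by simp⟩

theorem mu_spec (y u z : Q) : (y * (mu y u).1 z) * u = y * (z * u) := by simp [mu]

theorem mu_eq {y u z m : Q} (h : (y * m) * u = y * (z * u)) : (mu y u).1 z = m :=
  lcan (rcan ((mu_spec y u z).trans h.symm))

theorem hom_iv (π : Q →* F) (x : Q) : π (iv x) = iv (π x) :=
  (iv_eq (by rw [← map_mul, mul_iv, map_one])).symm

/-- the middle inner mapping, second argument inverted -/
noncomputable def xx (y w : Q) : Inn Q := mu y (iv w)

theorem xx_spec (y w z : Q) : (y * (xx y w).1 z) * iv w = y * (z * iv w) := mu_spec _ _ _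

theorem hom_xx (π : Q →* F) (y w z : Q) : π ((xx y w).1 z) = (xx (π y) (π w)).1 (π z) := by
  symm
  apply mu_eq
  rw [← hom_iv, ← map_mul, ← map_mul, xx_spec, map_mul, map_mul]

theorem conj_xx (g : Inn Q) (y w : Q) : g * xx y w * g⁻¹ = xx (g.1 y) (g.1 w) := by
  apply Subtype.ext
  ext z
  symm
  apply mu_eq
  have h := inn_aut g
  show (g.1 y * g.1 ((xx y w).1 (g.1⁻¹ z))) * iv (g.1 w) = _
  rw [← aut_iv h, ← h, ← h, xx_spec, h, h]
  simp

theorem xx_mul_xx (y w : Q) : xx y w * xx w y = 1 := by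
  apply Subtype.ext
  ext z
  show (xx y w).1 ((xx w y).1 z) = z
  have h1 := congrArg iv (xx_spec w y z)
  rw [aaip, aaip, aaip, aaip, iv_iv] at h1
  have h2 : (xx y w).1 (iv ((xx w y).1 z)) = iv z := mu_eq h1.symm
  rw [aut_iv (inn_aut _)] at h2
  have := congrArg iv h2
  rwa [iv_iv, iv_iv] at this

variable [Finite Q] {π : Q →* F}

/-- inner mappings as elements of the inner mapping group -/
noncomputable def ph (x y : Q) : Inn Q := ⟨Phi x y, Phi_mem x y, Phi_one x y⟩
/-- left inner mapping -/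
noncomputable def ps (x y : Q) : Inn Q := ⟨LL x y, LL_mem x y, LL_one x y⟩
/-- conjugation -/
noncomputable def tI (x : Q) : Inn Q := ⟨tt x, tt_mem x, tt_one x⟩

/-- standing hypotheses on an abelian kernel -/
structure Cx (π : Q →* F) : Prop where
  hA : Asc (MonoidHom.mker π)
  hC : Com (MonoidHom.mker π)
  aff : ∀ y e s : Q, π e = 1 → π s = 1 → (y * e) * s = y * (e * s)
  odd : ∀ a : Q, a * a = 1 → a = 1

theorem inn_ker (g : Inn Q) {a : Q} (ha : π a = 1) : π (g.1 a) = 1 :=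
  normal_ker π g.1 g.2.1 g.2.2 a ha

namespace Cx

variable (c : Cx π)

/-- the kernel as an additive group -/
def AA : Type := Additive (NG (MonoidHom.mker π) c.hA c.hC)

noncomputable instance : AddCommGroup c.AA :=
  inferInstanceAs (AddCommGroup (Additive (NG (MonoidHom.mker π) c.hA c.hC)))

/-- underlying element -/
def val (v : c.AA) : Q := (show MonoidHom.mker π from v).1

/-- element of the kernel -/
def el (a : Q) (ha : π a = 1) : c.AA := show MonoidHom.mker π from ⟨a, ha⟩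

theorem val_ker (v : c.AA) : π (c.val v) = 1 := (show MonoidHom.mker π from v).2
theorem val_el (a : Q) (ha : π a = 1) : c.val (c.el a ha) = a := rfl
theorem val_inj {v w : c.AA} (h : c.val v = c.val w) : v = w := Subtype.ext h
theorem val_add (v w : c.AA) : c.val (v + w) = c.val v * c.val w := rfl
theorem val_zero : c.val 0 = 1 := rfl
theorem val_neg (v : c.AA) : c.val (-v) = iv (c.val v) :=
  (iv_eq (by rw [← val_add, add_neg_cancel, val_zero])).symm

/-- restriction of inner mappings -/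
noncomputable def rr : Inn Q →* AddMonoid.End c.AA where
  toFun g := AddMonoidHom.mk' (fun v => c.el (g.1 (c.val v)) (inn_ker g (c.val_ker v)))
    (fun v w => c.val_inj (inn_aut g _ _))
  map_one' := by ext v; rfl
  map_mul' g h := by ext v; rfl

theorem val_rr (g : Inn Q) (v : c.AA) : c.val (c.rr g v) = g.1 (c.val v) := rfl

include c in
theorem trans {g : Perm Q} (hg : g ∈ Mlt Q) (h1 : π (g 1) = 1)
    (h2 : ∀ e, π e = 1 → g e = g 1 * e) (y : Q) {e : Q} (he : π e = 1) :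
    g (y * e) = g y * e := by
  have ha : (R (g 1))⁻¹ * g ∈ AutG Q :=
    aut_of_mem (mul_mem (inv_mem (R_mem _)) hg) (by simp)
  have sp : ∀ x, ((R (g 1))⁻¹ * g) x * g 1 = g x := fun x => by simp
  have e1 : ((R (g 1))⁻¹ * g) e = e := by
    apply rcan (a := g 1)
    rw [sp, h2 e he]
    exact c.hC _ h1 _ he
  rw [← sp, ha, e1, c.aff _ _ _ he h1, c.hC _ he _ h1, ← c.aff _ _ _ h1 he, sp]

include c in
theorem aff_mul (x y : Q) {a b : Q} (ha : π a = 1) (hb : π b = 1) :
    (x * a) * (y * b) = (x * y) * (Phi x y a * LL x y b) := by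
  have hm : (L x)⁻¹ * L (x * a) ∈ Mlt Q := mul_mem (inv_mem (L_mem _)) (L_mem _)
  have sp : ∀ z, x * ((L x)⁻¹ * L (x * a)) z = (x * a) * z := fun z => by simp
  have g1 : ((L x)⁻¹ * L (x * a)) 1 = a := by simp
  have h := c.trans hm (by rw [g1, ha]) (fun e he => by
    apply lcan (a := x)
    rw [sp, g1, c.aff _ _ _ ha he]) y hb
  obtain ⟨k, hk, e⟩ := exists_ker π (x := y) (y := ((L x)⁻¹ * L (x * a)) y) (by
    apply lcan (a := π x)
    rw [← map_mul, sp, map_mul, map_mul, ha, mul_one])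
  have e2 : Phi x y a = LL x y k := by
    apply lcan (a := x * y)
    rw [Phi_spec, LL_spec, ← e, sp]
  rw [← sp, h, e, c.aff _ _ _ hk hb, ← LL_spec, LL_aut, e2]

/-- the derivation of an automorphism that is trivial on the quotient -/
noncomputable def dl (g : Perm Q) (hg : ∀ y, π (g y) = π y) (y : Q) : c.AA :=
  c.el ((L y)⁻¹ (g y)) (lin_ker π y hg)

theorem dl_spec (g : Perm Q) (hg : ∀ y, π (g y) = π y) (y : Q) :
    y * c.val (c.dl g hg y) = g y := mul_Linv _ _

theorem dl_mul {g : Perm Q} (ha : g ∈ AutG Q) (hg : ∀ y, π (g y) = π y) (y y' : Q) :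
    c.dl g hg (y * y') = c.rr (ph y y') (c.dl g hg y) + c.rr (ps y y') (c.dl g hg y') := by
  apply c.val_inj
  apply lcan (a := y * y')
  rw [dl_spec, ha, ← c.dl_spec g hg y, ← c.dl_spec g hg y',
    c.aff_mul _ _ (c.val_ker _) (c.val_ker _)]
  rfl

theorem dl_iv {g : Perm Q} (ha : g ∈ AutG Q) (hg : ∀ y, π (g y) = π y) (y : Q) :
    c.dl g hg (iv y) = -c.rr (tI (iv y)) (c.dl g hg y) := by
  apply c.val_inj
  apply lcan (a := iv y)
  rw [dl_spec, aut_iv ha, ← c.dl_spec g hg y, aaip, ← map_neg, val_rr, val_neg]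
  exact (tt_spec _ _).symm

/-- the automorphism attached to a kernel element -/
noncomputable def gg (u a : Q) : Perm Q := (R a)⁻¹ * (R u)⁻¹ * R (a * u)

theorem gg_spec (u a y : Q) : (gg u a y * a) * u = y * (a * u) := by simp [gg]

theorem gg_aut (u a : Q) : gg u a ∈ AutG Q :=
  aut_of_mem (mul_mem (mul_mem (inv_mem (R_mem _)) (inv_mem (R_mem _))) (R_mem _)) (by simp [gg])

theorem gg_ker (u : Q) {a : Q} (ha : π a = 1) (y : Q) : π (gg u a y) = π y := by
  have := congrArg π (gg_spec u a y)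
  simp only [map_mul, ha, mul_one, one_mul] at this
  exact rcan this

/-- the operator `x - 1` -/
noncomputable def nn (y w : Q) : AddMonoid.End c.AA := c.rr (xx y w) - 1

theorem nn_apply (y w : Q) (v : c.AA) : c.nn y w v = c.rr (xx y w) v - v := rfl

theorem nn_eq (y w : Q) (v : c.AA) :
    c.nn y w v = c.dl (gg (iv w) (c.val v)) (gg_ker _ (c.val_ker v)) y := by
  rw [nn_apply, sub_eq_iff_eq_add]
  apply c.val_inj
  rw [val_rr, val_add]
  apply mu_eq
  rw [← c.aff _ _ _ (c.val_ker _) (c.val_ker _), dl_spec, gg_spec]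

theorem nn_mul (y y' w : Q) :
    c.nn (y * y') w = c.rr (ph y y') * c.nn y w + c.rr (ps y y') * c.nn y' w := by
  ext v
  show c.nn (y * y') w v = c.rr (ph y y') (c.nn y w v) + c.rr (ps y y') (c.nn y' w v)
  rw [nn_eq, nn_eq, nn_eq, c.dl_mul (gg_aut _ _)]

theorem nn_iv (y w : Q) : c.nn (iv y) w = -(c.rr (tI (iv y)) * c.nn y w) := by
  ext v
  show c.nn (iv y) w v = -(c.rr (tI (iv y)) (c.nn y w v))
  rw [nn_eq, nn_eq, c.dl_iv (gg_aut _ _)]

theorem nn_conj (g : Inn Q) (y w : Q) :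
    c.rr g * c.nn y w = c.nn (g.1 y) (g.1 w) * c.rr g := by
  rw [nn, nn, ← conj_xx, mul_sub, sub_mul, ← map_mul, ← map_mul, mul_one, one_mul]
  congr 2
  group

theorem one_add_nn (y w : Q) : 1 + c.nn y w = c.rr (xx y w) := by rw [nn]; abel

theorem nn_inv (y w : Q) : (1 + c.nn y w) * (1 + c.nn w y) = 1 := by
  rw [one_add_nn, one_add_nn, ← map_mul, xx_mul_xx, map_one]

theorem nn_abs (y w : Q) : c.nn y w * c.rr (tI (iv w)) = c.nn y w := by
  have e1 : (tI (iv w)).1 w = w := by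
    have := aut_iv (tt_aut (iv w)) (iv w)
    rwa [tt_self, iv_iv] at this
  have e2 : c.nn ((tI (iv w)).1 y) w = c.rr (tI (iv w)) * c.nn y w := by
    ext v
    show c.nn ((tI (iv w)).1 y) w v = c.rr (tI (iv w)) (c.nn y w v)
    rw [nn_eq, nn_eq]
    apply c.val_inj
    apply lcan (a := tt (iv w) y)
    have f1 : gg (iv w) (c.val v) (iv w) = iv w := by
      apply rcan (a := c.val v)
      apply rcan (a := iv w)
      rw [gg_spec, flex]
    have f2 : gg (iv w) (c.val v) (tt (iv w) y) = tt (iv w) (gg (iv w) (c.val v) y) := by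
      apply lcan (a := iv w)
      have := congrArg (gg (iv w) (c.val v)) (tt_spec (iv w) y)
      rw [gg_aut, gg_aut, f1] at this
      rw [tt_spec, this]
    rw [val_rr]
    show tt (iv w) y * c.val (c.dl _ _ (tt (iv w) y)) = tt (iv w) y * tt (iv w) _
    rw [dl_spec, f2, ← tt_aut, dl_spec]
  have e3 := c.nn_conj (tI (iv w)) y w
  rw [e1, e2] at e3
  have e4 : c.rr (tI (iv w))⁻¹ * c.rr (tI (iv w)) = 1 := by
    rw [← map_mul, inv_mul_cancel, map_one]
  calc c.nn y w * c.rr (tI (iv w))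
      = c.rr (tI (iv w))⁻¹ * (c.rr (tI (iv w)) * c.nn y w * c.rr (tI (iv w))) := by
        rw [← mul_assoc, ← mul_assoc, e4, one_mul]
    _ = c.nn y w := by rw [← e3, ← mul_assoc, e4, one_mul]

theorem nn_swap (y w : Q) : c.nn w y = -((1 + c.nn w y) * c.nn y w) := by
  linear_combination (norm := noncomm_ring) c.nn_inv w y

theorem nn_cube (w y : Q) (v : c.AA) : c.nn w y (c.nn w y (c.nn w y v)) = 0 := by
  have h := four_cube (c.nn w y) (c.nn y w) (c.nn y (iv w)) (c.nn w (iv y))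
    (c.rr (tI (iv w))) (c.rr (tI (iv y))) (c.nn_inv _ _)
    (by rw [← nn_iv]; exact c.nn_inv _ _) (by rw [← nn_iv]; exact c.nn_inv _ _)
    (by rw [← nn_iv]; exact c.nn_inv _ _) (by rw [← nn_iv, ← nn_iv]; exact c.nn_inv _ _)
    (by
      conv_lhs => rw [c.nn_swap y w]
      rw [neg_mul, mul_assoc, nn_abs, ← nn_swap])
    (c.nn_abs _ _)
    (by
      conv_lhs => rw [c.nn_swap w y]
      rw [neg_mul, mul_assoc, nn_abs, ← nn_swap])
    (c.nn_abs _ _)
  have two : ∀ v : c.AA, v + v = 0 → v = 0 := fun v hv => c.val_inj (c.odd _ (by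
    rw [← val_add, hv, val_zero]))
  have h4 : (4 : AddMonoid.End c.AA) * c.nn w y ^ 3 =
      (c.nn w y ^ 3 + c.nn w y ^ 3) + (c.nn w y ^ 3 + c.nn w y ^ 3) := by noncomm_ring
  rw [h4] at h
  have h5 := congrArg (fun f : AddMonoid.End c.AA => f v) h
  exact two _ (two _ h5)

/-- elements whose middle inner mappings act trivially on the kernel -/
def ZZ : Submonoid Q where
  carrier := {z | ∀ w, c.nn z w = 0}
  one_mem' := fun w => by
    have : xx 1 w = (1 : Inn Q) := by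
      apply Subtype.ext
      ext z
      exact mu_eq (by simp)
    rw [nn, this, map_one, sub_self]
  mul_mem' := by
    intro a b ha hb w
    rw [nn_mul, ha, hb]; simp

theorem rr_cancel (g : Inn Q) {v : c.AA} (h : c.rr g v = 0) : v = 0 := by
  have := rho_inv_apply c.rr g v
  rw [h, map_zero] at this
  exact this.symm

theorem ZZ_normal : IsNormal c.ZZ := by
  intro g hg h1 z hz w
  have h := c.nn_conj ⟨g, hg, h1⟩ z (g⁻¹ w)
  rw [hz, mul_zero] at h
  have e0 : g (g⁻¹ w) = w := by simp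
  simp only [e0] at h
  ext v
  have := congrArg (fun f : AddMonoid.End c.AA => f (c.rr (⟨g, hg, h1⟩ : Inn Q)⁻¹ v)) h
  simp only [AddMonoid.End.coe_mul, Function.comp_apply, rho_apply_inv] at this
  exact this.symm

theorem ker_le_ZZ {z : Q} (hz : π z = 1) : z ∈ c.ZZ := by
  intro w
  have : c.nn w z = 0 := by
    ext v
    show c.rr (xx w z) v - v = 0
    rw [sub_eq_zero]
    apply c.val_inj
    rw [val_rr]
    apply mu_eq
    exact c.aff _ _ _ (c.val_ker v) (by rw [hom_iv, hz, iv_one])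
  rw [nn_swap, this]; simp

theorem k1_swap {y w : Q} {v : c.AA} (h : c.nn y w v = 0) : c.nn w y v = 0 := by
  rw [nn_swap]
  show -((1 + c.nn w y) (c.nn y w v)) = 0
  rw [h]; simp

theorem k2_swap {y w : Q} {v : c.AA} (h : c.nn y w (c.nn y w v) = 0) :
    c.nn w y (c.nn w y v) = 0 := by
  apply c.k1_swap
  have e : c.nn y w * c.nn w y = -((1 + c.nn w y) * (c.nn y w * c.nn y w)) := by
    linear_combination (norm := noncomm_ring) c.nn_inv y w - c.nn_inv w y + c.nn_inv w y * c.nn y w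
  show (c.nn y w * c.nn w y) v = 0
  rw [e]
  show -((1 + c.nn w y) (c.nn y w (c.nn y w v))) = 0
  rw [h]; simp

variable {F1 : Type} [ALoop F1] {σ : Q →* F1} (hσ : MonoidHom.mker σ = c.ZZ)
include hσ

theorem nn_shift {y y' : Q} (h : σ y' = σ y) :
    ∃ g : Inn Q, (∀ t, σ (g.1 t) = σ t) ∧ ∀ w, c.nn y' w = c.rr g * c.nn y w := by
  obtain ⟨z, hz, rfl⟩ := exists_ker σ h
  have hz' : z ∈ c.ZZ := hσ ▸ hz
  refine ⟨ph y z, fun t => ?_, fun w => by rw [nn_mul, hz' w]; simp⟩
  have := congrArg σ (Phi_spec y z t)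
  simp only [map_mul, hz, mul_one] at this
  exact lcan this

theorem k1_left {y y' w : Q} (h : σ y' = σ y) {v : c.AA} (hv : c.nn y w v = 0) :
    c.nn y' w v = 0 := by
  obtain ⟨g, -, hg⟩ := c.nn_shift hσ h
  rw [hg]
  show c.rr g (c.nn y w v) = 0
  rw [hv, map_zero]

theorem k1_cong {y y' w w' : Q} (h : σ y' = σ y) (h' : σ w' = σ w) {v : c.AA}
    (hv : c.nn y w v = 0) : c.nn y' w' v = 0 :=
  c.k1_swap (c.k1_left hσ h' (c.k1_swap (c.k1_left hσ h hv)))

theorem k1_inv {y w : Q} {g : Inn Q} (hg : ∀ t, σ (g.1 t) = σ t) {v : c.AA}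
    (hv : c.nn y w v = 0) : c.nn y w (c.rr g v) = 0 := by
  apply c.k1_cong hσ (hg y).symm (hg w).symm
  have := congrArg (fun f : AddMonoid.End c.AA => f v) (c.nn_conj g y w)
  simp only [AddMonoid.End.coe_mul, Function.comp_apply] at this
  rw [← this, hv, map_zero]

theorem k2_left {y y' w : Q} (h : σ y' = σ y) {v : c.AA} (hv : c.nn y w (c.nn y w v) = 0) :
    c.nn y' w (c.nn y' w v) = 0 := by
  apply c.k1_left hσ h
  obtain ⟨g, hg1, hg⟩ := c.nn_shift hσ h
  rw [hg]
  exact c.k1_inv hσ hg1 hv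

theorem k2_cong {y y' w w' : Q} (h : σ y' = σ y) (h' : σ w' = σ w) {v : c.AA}
    (hv : c.nn y w (c.nn y w v) = 0) : c.nn y' w' (c.nn y' w' v) = 0 :=
  c.k2_swap (c.k2_left hσ h' (c.k2_swap (c.k2_left hσ h hv)))

omit hσ in
theorem irr (hM : MinNormal (MonoidHom.mker π)) : Irr c.rr := by
  intro U hU
  let X : Submonoid Q :=
    { carrier := {a | ∃ v ∈ U, c.val v = a}
      one_mem' := ⟨0, U.zero_mem, rfl⟩
      mul_mem' := by
        rintro _ _ ⟨v, hv, rfl⟩ ⟨w, hw, rfl⟩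
        exact ⟨v + w, U.add_mem hv hw, rfl⟩ }
  rcases hM.2 X (by
    rintro g hg h1 _ ⟨v, hv, rfl⟩
    exact ⟨_, hU ⟨g, hg, h1⟩ v hv, rfl⟩) (by
    rintro _ ⟨v, hv, rfl⟩
    exact c.val_ker v) with h | h
  · left
    rw [AddSubgroup.eq_bot_iff_forall]
    intro v hv
    have : c.val v ∈ X := ⟨v, hv, rfl⟩
    rw [h] at this
    exact c.val_inj this
  · right
    rw [eq_top_iff]
    intro v _
    have : c.val v ∈ X := by rw [h]; exact c.val_ker v
    obtain ⟨w, hw, e⟩ := this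
    exact c.val_inj e ▸ hw

theorem step (hM : MinNormal (MonoidHom.mker π)) {F2 : Type} [ALoop F2] {τ : F1 →* F2}
    (hC : Com (MonoidHom.mker τ))
    (haff : ∀ y e s : F1, τ e = 1 → τ s = 1 → (y * e) * s = y * (e * s))
    (hmid : ∀ a : F1, τ a = 1 → ∀ x y, (x * a) * y = x * (a * y)) {u : Q}
    (hu : τ (σ u) = 1) : σ u = 1 := by
  let K : Subgroup (Inn Q) :=
    { carrier := {g | ∀ t, σ (g.1 t) = σ t}
      one_mem' := fun _ => rfl
      mul_mem' := by
        intro g h hg hh t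
        show σ (g.1 (h.1 t)) = σ t
        rw [hg, hh]
      inv_mem' := by
        intro g hg t
        show σ (g.1⁻¹ t) = σ t
        rw [← hg (g.1⁻¹ t)]; simp }
  haveI : K.Normal := ⟨fun g hg h t => by
    show σ (h.1 (g.1 (h.1⁻¹ t))) = σ t
    rw [congr_mem σ h.2.1 (hg _)]; simp⟩
  have tr : ∀ y w z : F1, τ w = 1 → ∃ b, τ b = 1 ∧ (xx y w).1 z = z * b := by
    intro y w z hw
    apply exists_ker τ
    have := congrArg τ (xx_spec y w z)
    simp only [map_mul, hom_iv, hw, iv_one, mul_one] at this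
    exact lcan this
  have fx : ∀ y w b : F1, τ b = 1 → (xx y w).1 b = b := fun y w b hb => mu_eq (hmid b hb _ _)
  have cm : ∀ y w y' w' z : F1, τ w = 1 → τ w' = 1 →
      (xx y w).1 ((xx y' w').1 z) = (xx y' w').1 ((xx y w).1 z) := by
    intro y w y' w' z hw hw'
    obtain ⟨b, hb, e⟩ := tr y w z hw
    obtain ⟨b', hb', e'⟩ := tr y' w' z hw'
    rw [e, e', inn_aut, inn_aut, e, e', fx _ _ _ hb, fx _ _ _ hb', haff _ _ _ hb hb',
      haff _ _ _ hb' hb, hC _ hb _ hb']
  have main := group_main c.rr (c.irr hM) K {x | ∃ y w, τ (σ w) = 1 ∧ x = xx y w} (by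
      rintro g _ ⟨y, w, hw, rfl⟩
      exact ⟨_, _, inn_ker (π := τ.comp σ) g hw, conj_xx g y w⟩) (by
      rintro _ ⟨y, w, hw, rfl⟩
      refine ⟨(c.nn y w).ker, (c.nn y w * c.nn y w).ker, fun α hα => ?_⟩
      rw [conj_xx]
      refine ⟨fun v hv => c.k1_cong hσ (hα y) (hα w) hv, fun v hv => ?_, fun v => ?_⟩
      · exact c.k1_cong hσ (hα y).symm (hα w).symm (c.k2_cong hσ (hα y) (hα w) hv)
      · exact c.k2_cong hσ (hα y).symm (hα w).symm (c.nn_cube _ _ v)) (by
      rintro _ ⟨y, w, hw, rfl⟩ _ ⟨y', w', hw', rfl⟩ t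
      obtain ⟨s, rfl⟩ := ((xx y w).1 * (xx y' w').1).surjective t
      have e : (xx y' w' * xx y w * (xx y' w')⁻¹ * (xx y w)⁻¹).1
          (((xx y w).1 * (xx y' w').1) s) = (xx y' w').1 ((xx y w).1 s) := by simp
      rw [e, Perm.mul_apply, hom_xx, hom_xx, hom_xx, hom_xx, cm _ _ _ _ _ hw hw'])
  have : u ∈ c.ZZ := fun w => by
    have h0 : c.nn w u = 0 := by rw [nn, main _ ⟨w, u, hu, rfl⟩, sub_self]
    rw [nn_swap, h0]; simp
  rw [← hσ] at this
  exact this

end Cx

theorem sq_eq_one (n : ℕ) : ∀ (Q : Type) [ALoop Q] [Finite Q] (x : Q), Nat.card Q = n → Odd n →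
    x * x = 1 → x = 1 := by
  induction n using Nat.strong_induction_on with
  | _ n ih =>
  intro Q _ _ x hn hodd hx
  classical
  haveI := Fintype.ofFinite Q
  by_contra hne
  have h2 : L x * L x ∈ AutG Q := aut_of_mem (mul_mem (L_mem _) (L_mem _)) (by simp [hx])
  have h2x : (L x * L x) 1 = 1 := aut_one h2
  obtain ⟨k, m, hm, hkm⟩ := Nat.exists_eq_two_pow_mul_odd (orderOf_pos (L x)).ne'
  let φ : Perm Q := L x ^ m
  have hφ : φ ^ 2 ^ k = 1 := by
    rw [← pow_mul, mul_comm, ← hkm, pow_orderOf_eq_one]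
  have hφ1 : φ 1 = x := by
    obtain ⟨j, rfl⟩ := hm
    have : ∀ j : ℕ, (L x ^ (2 * j)) 1 = 1 := by
      intro j
      induction j with
      | zero => rfl
      | succ j ih => rw [mul_add, mul_one, pow_add, pow_two, Perm.mul_apply, h2x, ih]
    show (L x ^ (2 * j + 1)) 1 = x
    rw [pow_succ', Perm.mul_apply, this]; simp
  have hφm : φ ∈ Mlt Q := pow_mem (L_mem x) _
  have hc : Commute (R x) φ := by
    apply Commute.pow_right
    ext z
    exact flex x z
  have hcon : ¬ 2 ∣ Fintype.card Q := by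
    rw [← Nat.card_eq_fintype_card, hn]
    exact hodd.not_two_dvd_nat
  obtain ⟨y, hy⟩ := Perm.exists_fixed_point_of_prime hcon hφ
  let ψ : Perm Q := (L y)⁻¹ * φ * L y
  have hψa : ψ ∈ AutG Q := by
    have := conj_aut hφm y
    rwa [hy] at this
  have hψ : ψ ^ 2 ^ k = 1 := by
    have : ψ = (L y)⁻¹ * φ * ((L y)⁻¹)⁻¹ := by rw [inv_inv]
    rw [this, conj_pow, hφ]; group
  have hxF : x ∈ fixSub ψ hψa := by
    show (L y)⁻¹ (φ (y * x)) = x
    have := congrArg (fun g : Perm Q => g y) hc.eq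
    simp only [Perm.mul_apply, H284Z.R_apply] at this
    rw [← this, hy, Linv_mul]
  have hne' : (L y)⁻¹ 1 ∉ fixSub ψ hψa := by
    intro h
    have h3 : (L y)⁻¹ (φ (y * (L y)⁻¹ 1)) = (L y)⁻¹ 1 := h
    rw [mul_Linv, hφ1] at h3
    exact hne ((L y)⁻¹.injective h3)
  have hlt : Nat.card (fixSub ψ hψa) < n := by
    rw [← hn]
    exact Finite.card_subtype_lt hne'
  have hmod := Perm.card_compl_support_modEq hψ
  have hcard : Nat.card (fixSub ψ hψa) = ψ.supportᶜ.card := by
    rw [← Fintype.card_coe, ← Nat.card_eq_fintype_card]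
    apply Nat.card_congr
    apply Equiv.subtypeEquivRight
    intro z
    simp only [Finset.mem_compl, Perm.mem_support, not_not]
    rfl
  have hodd' : Odd (Nat.card (fixSub ψ hψa)) := by
    rw [hcard, ← Nat.not_even_iff_odd, even_iff_two_dvd]
    exact fun hd => hcon ((hmod.dvd_iff dvd_rfl).1 hd)
  have := ih _ hlt (fixSub ψ hψa) ⟨x, hxF⟩ rfl hodd' (Subtype.ext hx)
  exact hne (congrArg Subtype.val this)

theorem mid_aux (n : ℕ) : ∀ (Q : Type) [ALoop Q] [Finite Q], Nat.card Q = n → Solv Q → Odd n →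
    ∀ (N : Submonoid Q) (p : ℕ), p.Prime → MinNormal N → Asc N → Com N →
      (∀ a ∈ N, pw a p = 1) → ∀ a ∈ N, ∀ x y, (x * a) * y = x * (a * y) := by
  induction n using Nat.strong_induction_on with
  | _ n ih =>
  intro Q _ _ hn hQ hodd N p hp hM hA hC he a ha x y
  by_cases ha1 : a = 1
  · subst ha1; simp
  obtain ⟨F, _, π, hs, rfl⟩ := exists_quot N hM.1
  have c : Cx π := ⟨hA, hC, affine π hM hA hC hp he, fun a => sq_eq_one n Q a hn hodd⟩
  obtain ⟨F1, _, σ, hs1, hσ⟩ := exists_quot c.ZZ c.ZZ_normal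
  haveI : Finite F1 := Finite.of_surjective _ hs1
  have hall : ∀ u, σ u = 1 := by
    by_contra hcon
    push Not at hcon
    obtain ⟨u, hu⟩ := hcon
    haveI : Nontrivial F1 := ⟨⟨_, _, hu⟩⟩
    obtain ⟨B, q, hq, hB, hM', hA', hC', he'⟩ := (hQ.quot σ hs1).exists_min
    have hlt : Nat.card F1 < n := by
      rw [← hn]
      refine card_quot_lt σ hs1 (fun h => ha1 ?_)
      have : a ∈ MonoidHom.mker σ := hσ ▸ c.ker_le_ZZ ha
      rw [h] at this
      exact this
    have hodd1 : Odd (Nat.card F1) := by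
      rw [← hn, card_eq_mul σ hs1] at hodd
      exact (Nat.odd_mul.1 hodd).1
    have hmid := ih _ hlt F1 rfl (hQ.quot σ hs1) hodd1 B q hq hM' hA' hC' he'
    obtain ⟨F2, _, τ, hs2, rfl⟩ := exists_quot B hM'.1
    apply hB
    rw [Submonoid.eq_bot_iff_forall]
    intro b hb
    obtain ⟨b, rfl⟩ := hs1 b
    exact c.step hσ hM hC' (affine τ hM' hA' hC' hq he') hmid hb
  have hx : x ∈ c.ZZ := hσ ▸ hall x
  have h1 := congrArg (fun f : AddMonoid.End c.AA => f (c.el a ha)) (hx (iv y))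
  have h2 : c.rr (xx x (iv y)) (c.el a ha) = c.el a ha := sub_eq_zero.1 h1
  have h3 : (xx x (iv y)).1 a = a := congrArg c.val h2
  have h4 := xx_spec x (iv y) a
  rwa [h3, iv_iv] at h4

/-- a nontrivial finite solvable automorphic loop of odd order has a nontrivial middle nucleus -/
theorem middle (Q : Type) [ALoop Q] [Finite Q] [Nontrivial Q] (hQ : Solv Q)
    (hodd : Odd (Nat.card Q)) : ∃ a : Q, a ≠ 1 ∧ ∀ x y, (x * a) * y = x * (a * y) := by
  obtain ⟨N, p, hp, hN, hM, hA, hC, he⟩ := hQ.exists_min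
  obtain ⟨a, ha, ha1⟩ : ∃ a ∈ N, a ≠ 1 := by
    by_contra hc
    push Not at hc
    exact hN ((Submonoid.eq_bot_iff_forall _).2 hc)
  exact ⟨a, ha1, mid_aux _ Q rfl hQ hodd N p hp hM hA hC he a ha⟩

end Pool.Agent.H844Z.AL
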